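import Pool.Agent.Mg.Fab80ef.G6c2ed6

namespace Pool.Agent.Results.MP_ab80ef_co.Ellis

open Pool.Agent.MP_ab80ef_co

/-- For every positive integer `j`, the infimum `f(2^{-j})` is attained and equals `j 2^{-j}`. -/
theorem result (j : ℕ) (hj : 1 ≤ j) :
    IsLeast (excessValues ((2 : ℝ) ^ (-(j : ℤ)))) (j * (2 : ℝ) ^ (-(j : ℤ))) :=
  main j hj

end Pool.Agent.Results.MP_ab80ef_co.Ellis
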